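import Mathlib

/-!
# The free product of copies of `Z/2` as `FreeGroup ⋊ Z/2`

For a set `C` with base point `c0` the group `MM c0 = FreeGroup {c // c ≠ c0} ⋊ ℤˣ` (the unit `-1`
inverts the generators) is the free product of copies of `Z/2` indexed by `C`: it is generated by the
involutions `tt c`, subject to no other relation.  A group `Q` acting on `C` acts on it, and on the
free group `FreeGroup {c // c ≠ c0}`.
-/

namespace Pool.Agent.H96.CD

open SemidirectProduct

section Units

variable {H : Type*} [Group H]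

/-- the homomorphism from `ℤˣ` given by an involution -/
def ulift (t : H) (ht : t * t = 1) : ℤˣ →* H where
  toFun u := if u = 1 then 1 else t
  map_one' := by simp
  map_mul' a b := by
    rcases Int.units_eq_one_or a with rfl | rfl <;> rcases Int.units_eq_one_or b with rfl | rfl <;>
      simp [ht]

@[simp] lemma ulift_neg (t : H) (ht : t * t = 1) : ulift t ht (-1) = t := by
  have : (-1 : ℤˣ) ≠ 1 := by decide
  simp [ulift]

lemma units_hom_ext {f g : ℤˣ →* H} (h : f (-1) = g (-1)) : f = g := by
  ext u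
  rcases Int.units_eq_one_or u with rfl | rfl
  · simp
  · exact h

end Units

section Free

variable {C : Type} (c0 : C)

/-- the letters -/
abbrev XX (c0 : C) : Type := {c : C // c ≠ c0}

open Classical in
/-- the letter of `c`, the neutral element for `c = c0` -/
noncomputable def yy (c : C) : FreeGroup (XX c0) :=
  if h : c = c0 then 1 else FreeGroup.of ⟨c, h⟩

@[simp] lemma yy_self : yy c0 c0 = 1 := by simp [yy]

@[simp] lemma yy_val (x : XX c0) : yy c0 x.1 = FreeGroup.of x := by simp [yy, x.2]

/-- inversion of the letters -/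
def tauHom : FreeGroup (XX c0) →* FreeGroup (XX c0) := FreeGroup.lift fun x => (FreeGroup.of x)⁻¹

@[simp] lemma tauHom_of (x : XX c0) : tauHom c0 (FreeGroup.of x) = (FreeGroup.of x)⁻¹ := by
  simp [tauHom]

@[simp] lemma tauHom_yy (c : C) : tauHom c0 (yy c0 c) = (yy c0 c)⁻¹ := by
  by_cases h : c = c0
  · subst h; simp
  · have : yy c0 c = FreeGroup.of ⟨c, h⟩ := by simp [yy, h]
    rw [this]; simp

lemma tauHom_comp : (tauHom c0).comp (tauHom c0) = MonoidHom.id _ := by
  ext x; simp

/-- inversion of the letters as an automorphism -/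
def tauAut : MulAut (FreeGroup (XX c0)) :=
  MonoidHom.toMulEquiv (tauHom c0) (tauHom c0) (tauHom_comp c0) (tauHom_comp c0)

@[simp] lemma tauAut_apply (x : FreeGroup (XX c0)) : tauAut c0 x = tauHom c0 x := rfl

lemma tauAut_sq : tauAut c0 * tauAut c0 = 1 := by
  ext x
  have := DFunLike.congr_fun (tauHom_comp c0) x
  simpa using this

/-- the action of `ℤˣ` on the free group -/
def tau : ℤˣ →* MulAut (FreeGroup (XX c0)) := ulift (tauAut c0) (tauAut_sq c0)

@[simp] lemma tau_neg : tau c0 (-1) = tauAut c0 := by simp [tau]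

/-- the free product of copies of `Z/2` indexed by `C` -/
abbrev MM : Type := FreeGroup (XX c0) ⋊[tau c0] ℤˣ

/-- the involutions -/
noncomputable def tt (c : C) : MM c0 := inl (yy c0 c) * inr (-1)

@[simp] lemma tt_left (c : C) : (tt c0 c).left = yy c0 c := by simp [tt]

@[simp] lemma tt_right (c : C) : (tt c0 c).right = -1 := by simp [tt]

@[simp] lemma tt_sq (c : C) : tt c0 c * tt c0 c = 1 := by
  apply SemidirectProduct.ext <;> simp

@[simp] lemma tt_inv (c : C) : (tt c0 c)⁻¹ = tt c0 c := by
  rw [inv_eq_iff_mul_eq_one]; exact tt_sq c0 c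

lemma tt_mul (c d : C) : tt c0 c * tt c0 d = inl (yy c0 c * (yy c0 d)⁻¹) := by
  apply SemidirectProduct.ext <;> simp

lemma inl_of (x : XX c0) : (inl (FreeGroup.of x) : MM c0) = tt c0 x.1 * tt c0 c0 := by
  rw [tt_mul]; simp

lemma inr_neg : (inr (-1) : MM c0) = tt c0 c0 := by simp [tt]

variable {H : Type*} [Group H]

/-- universal property of the free product -/
def mlift (h : C → H) (hh : ∀ c, h c * h c = 1) : MM c0 →* H :=
  SemidirectProduct.lift (FreeGroup.lift fun x => h x.1 * h c0) (ulift (h c0) (hh c0)) (by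
    intro g
    rcases Int.units_eq_one_or g with rfl | rfl
    · ext x; simp
    · ext x
      have h1 : (h c0)⁻¹ = h c0 := inv_eq_iff_mul_eq_one.2 (hh c0)
      have h2 : (h x.1)⁻¹ = h x.1 := inv_eq_iff_mul_eq_one.2 (hh x.1)
      simp [h1, h2, mul_assoc, hh c0])

@[simp] lemma mlift_tt (h : C → H) (hh : ∀ c, h c * h c = 1) (c : C) :
    mlift c0 h hh (tt c0 c) = h c := by
  by_cases hc : c = c0
  · subst hc
    rw [← inr_neg]; simp [mlift]
  · have : yy c0 c = FreeGroup.of ⟨c, hc⟩ := by simp [yy, hc]
    simp only [tt, this, mlift, map_mul, lift_inl, lift_inr, FreeGroup.lift_apply_of, ulift_neg]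
    rw [mul_assoc, hh, mul_one]

lemma mext {f g : MM c0 →* H} (h : ∀ c, f (tt c0 c) = g (tt c0 c)) : f = g := by
  apply SemidirectProduct.hom_ext
  · ext x
    simp only [MonoidHom.comp_apply, inl_of, map_mul, h]
  · apply units_hom_ext
    simp only [MonoidHom.comp_apply, inr_neg, h]

variable {Q : Type} [Group Q] [MulAction Q C]

/-- the action of `Q` on the free product, as homomorphisms -/
noncomputable def betaHom (q : Q) : MM c0 →* MM c0 := mlift c0 (fun c => tt c0 (q • c)) (by simp)

@[simp] lemma betaHom_tt (q : Q) (c : C) : betaHom c0 q (tt c0 c) = tt c0 (q • c) := by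
  simp [betaHom]

lemma betaHom_mul (p q : Q) : betaHom c0 (p * q) = (betaHom c0 p).comp (betaHom c0 q) := by
  apply mext; intro c; simp [mul_smul]

lemma betaHom_one : betaHom c0 (1 : Q) = MonoidHom.id _ := by
  apply mext; intro c; simp

/-- the action of `Q` on the free product -/
noncomputable def beta : Q →* MulAut (MM c0) where
  toFun q := MonoidHom.toMulEquiv (betaHom c0 q) (betaHom c0 q⁻¹)
    (by rw [← betaHom_mul, inv_mul_cancel, betaHom_one])
    (by rw [← betaHom_mul, mul_inv_cancel, betaHom_one])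
  map_one' := by
    ext1 x
    exact DFunLike.congr_fun (betaHom_one (Q := Q) c0) x
  map_mul' p q := by
    ext1 x
    exact DFunLike.congr_fun (betaHom_mul c0 p q) x

lemma beta_apply (q : Q) (m : MM c0) : beta c0 q m = betaHom c0 q m := rfl

@[simp] lemma beta_tt (q : Q) (c : C) : beta c0 q (tt c0 c) = tt c0 (q • c) := betaHom_tt c0 q c

/-- the action of `Q` on the free group, as homomorphisms -/
noncomputable def alphaHom (q : Q) : FreeGroup (XX c0) →* FreeGroup (XX c0) :=
  FreeGroup.lift fun x => yy c0 (q • x.1) * (yy c0 (q • c0))⁻¹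

@[simp] lemma alphaHom_of (q : Q) (x : XX c0) :
    alphaHom c0 q (FreeGroup.of x) = yy c0 (q • x.1) * (yy c0 (q • c0))⁻¹ := by
  simp [alphaHom]

@[simp] lemma alphaHom_yy (q : Q) (c : C) :
    alphaHom c0 q (yy c0 c) = yy c0 (q • c) * (yy c0 (q • c0))⁻¹ := by
  by_cases h : c = c0
  · subst h; simp
  · have : yy c0 c = FreeGroup.of ⟨c, h⟩ := by simp [yy, h]
    rw [this]; simp

lemma alphaHom_mul (p q : Q) : alphaHom c0 (p * q) = (alphaHom c0 p).comp (alphaHom c0 q) := by
  ext x; simp [mul_smul]

lemma alphaHom_one : alphaHom c0 (1 : Q) = MonoidHom.id _ := by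
  ext x; simp

/-- the action of `Q` on the free group -/
noncomputable def alpha : Q →* MulAut (FreeGroup (XX c0)) where
  toFun q := MonoidHom.toMulEquiv (alphaHom c0 q) (alphaHom c0 q⁻¹)
    (by rw [← alphaHom_mul, inv_mul_cancel, alphaHom_one])
    (by rw [← alphaHom_mul, mul_inv_cancel, alphaHom_one])
  map_one' := by
    ext1 x
    exact DFunLike.congr_fun (alphaHom_one (Q := Q) c0) x
  map_mul' p q := by
    ext1 x
    exact DFunLike.congr_fun (alphaHom_mul c0 p q) x

lemma alpha_apply (q : Q) (m : FreeGroup (XX c0)) : alpha c0 q m = alphaHom c0 q m := rfl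

lemma beta_inl (q : Q) (x : FreeGroup (XX c0)) :
    beta c0 q (inl x) = inl (alpha c0 q x) := by
  have : (betaHom c0 q).comp inl = (inl (φ := tau c0)).comp (alphaHom c0 q) := by
    ext1 x
    rw [MonoidHom.comp_apply, MonoidHom.comp_apply, inl_of, map_mul, betaHom_tt, betaHom_tt,
      alphaHom_of, tt_mul]
  exact DFunLike.congr_fun this x

end Free

end Pool.Agent.H96.CD
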