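import Pool.Agent.H75.Davis.Cox
import Pool.Agent.H96.CD.Free

/-!
# The commutator subgroup of a right-angled Coxeter group is poly-free

`Gam adj hsymm` is the intersection of the kernels of the characters `χ u : W → ℤˣ` of the
right-angled Coxeter group `W` of the finite graph `adj` on `V`.  For a vertex `v` it is the
semidirect product of a free group and of the group `Gam` of the graph without `v`.
-/

namespace Pool.Agent.H96.CD

open SemidirectProduct Pool.Agent.H75.Davis

set_option linter.unusedSectionVars false

section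

variable {V : Type} [Fintype V] [DecidableEq V] (adj : V → V → Prop) [DecidableRel adj]
  (hsymm : ∀ u v, adj u v → adj v u)

/-- the simple generators -/
noncomputable abbrev sg (u : V) : RW adj hsymm := (rcs adj hsymm).simple u

/-- the characters (the same as in `Pool.Agent.H75.Davis.rdata`) -/
noncomputable def chi (u : V) : RW adj hsymm →* ℤˣ :=
  (rcs adj hsymm).lift ⟨fun v => (if u = v then (-1 : ℤˣ) else 1), liftable_sign adj hsymm u⟩

lemma chi_sg (u w : V) : chi adj hsymm u (sg adj hsymm w) = if u = w then -1 else 1 :=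
  (rcs adj hsymm).lift_apply_simple (liftable_sign adj hsymm u) w

lemma rdata_chi (hirr : ∀ v, ¬ adj v v) (u : V) : (rdata adj hsymm hirr).χ u = chi adj hsymm u := rfl

/-- The commutator subgroup. -/
noncomputable def Gam : Subgroup (RW adj hsymm) := ⨅ u, (chi adj hsymm u).ker

lemma mem_Gam (w : RW adj hsymm) : w ∈ Gam adj hsymm ↔ ∀ u, chi adj hsymm u w = 1 := by
  simp [Gam, Subgroup.mem_iInf, MonoidHom.mem_ker]

lemma sg_sq (u : V) : sg adj hsymm u * sg adj hsymm u = 1 := (rcs adj hsymm).simple_mul_simple_self u

/-- lifting to a group -/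
lemma exists_lift {H : Type*} [Group H] (f : V → H) (h1 : ∀ u, f u * f u = 1)
    (h2 : ∀ u w, adj u w → u ≠ w → f u * f w = f w * f u) :
    (cmat adj hsymm).IsLiftable f := by
  intro u w
  rw [cmat_apply]
  by_cases h : u = w
  · subst h; simp [h1]
  · by_cases ha : adj u w
    · simp only [h, if_false, ha, if_true, sq]
      calc f u * f w * (f u * f w) = f u * (f w * f u) * f w := by group
        _ = f u * (f u * f w) * f w := by rw [h2 u w ha h]
        _ = (f u * f u) * (f w * f w) := by group
        _ = 1 := by rw [h1, h1, one_mul]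
    · simp [h, ha]

lemma hom_ext_sg {H : Type*} [Group H] {f g : RW adj hsymm →* H}
    (h : ∀ u, f (sg adj hsymm u) = g (sg adj hsymm u)) : f = g :=
  (rcs adj hsymm).ext_simple h

variable (v : V)

/-- the graph without `v` -/
abbrev radj (a b : {u : V // u ≠ v}) : Prop := adj a.1 b.1

instance : DecidableRel (radj adj v) := fun a b => inferInstanceAs (Decidable (adj a.1 b.1))

include hsymm in
lemma rsymm : ∀ a b, radj adj v a b → radj adj v b a := fun _ _ h => hsymm _ _ h

/-- the group of the graph without `v` -/
abbrev RW' : Type := RW (radj adj v) (rsymm adj hsymm v)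

/-- its generators -/
noncomputable abbrev sg' (u : {u : V // u ≠ v}) : RW' adj hsymm v :=
  sg (radj adj v) (rsymm adj hsymm v) u

/-- the inclusion -/
noncomputable def iot : RW' adj hsymm v →* RW adj hsymm :=
  (rcs (radj adj v) (rsymm adj hsymm v)).lift ⟨fun u => sg adj hsymm u.1,
    exists_lift _ _ _ (fun _ => sg_sq adj hsymm _) (fun _ _ h hne =>
      comm_of_adj adj hsymm h (fun e => hne (Subtype.ext e)))⟩

@[simp] lemma iot_sg (u : {u : V // u ≠ v}) : iot adj hsymm v (sg' adj hsymm v u) = sg adj hsymm u.1 :=
  (rcs (radj adj v) (rsymm adj hsymm v)).lift_apply_simple _ u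

/-- the subgroup generated by the link of `v` -/
def lkv : Subgroup (RW' adj hsymm v) :=
  Subgroup.closure {w | ∃ u : {u : V // u ≠ v}, adj u.1 v ∧ w = sg' adj hsymm v u}

/-- cosets -/
abbrev CC : Type := RW' adj hsymm v ⧸ lkv adj hsymm v

/-- base coset -/
abbrev cc0 : CC adj hsymm v := ((1 : RW' adj hsymm v) : CC adj hsymm v)

lemma sg_smul_cc0 (u : {u : V // u ≠ v}) (h : adj u.1 v) :
    sg' adj hsymm v u • cc0 adj hsymm v = cc0 adj hsymm v := by
  rw [cc0, MulAction.Quotient.smul_coe, QuotientGroup.eq]
  simp only [smul_eq_mul, mul_one]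
  apply Subgroup.inv_mem
  exact Subgroup.subset_closure ⟨u, h, rfl⟩

lemma comm_lkv {w : RW' adj hsymm v} (hw : w ∈ lkv adj hsymm v) :
    iot adj hsymm v w * sg adj hsymm v = sg adj hsymm v * iot adj hsymm v w := by
  induction hw using Subgroup.closure_induction with
  | mem x hx =>
    obtain ⟨u, hu, rfl⟩ := hx
    rw [iot_sg]
    exact comm_of_adj adj hsymm hu u.2
  | one => simp
  | mul x y _ _ hx hy =>
    rw [map_mul, mul_assoc, hy, ← mul_assoc, hx, mul_assoc]
  | inv x _ hx =>
    rw [map_inv]
    have h : (iot adj hsymm v x)⁻¹ * (iot adj hsymm v x * sg adj hsymm v) * (iot adj hsymm v x)⁻¹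
      = (iot adj hsymm v x)⁻¹ * (sg adj hsymm v * iot adj hsymm v x) * (iot adj hsymm v x)⁻¹ := by
      rw [hx]
    simpa [mul_assoc] using h.symm

/-- the conjugates of the generator of `v` -/
noncomputable def kk : CC adj hsymm v → RW adj hsymm :=
  Quotient.lift (fun w => iot adj hsymm v w * sg adj hsymm v * (iot adj hsymm v w)⁻¹) (by
    intro a b hab
    have h1 : a⁻¹ * b ∈ lkv adj hsymm v := QuotientGroup.leftRel_apply.1 hab
    have h2 := comm_lkv adj hsymm v h1
    rw [map_mul, map_inv] at h2
    set A := iot adj hsymm v a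
    set B := iot adj hsymm v b
    set S := sg adj hsymm v
    calc A * S * A⁻¹ = A * (S * (A⁻¹ * B)) * B⁻¹ := by group
      _ = A * (A⁻¹ * B * S) * B⁻¹ := by rw [h2]
      _ = B * S * B⁻¹ := by group)

lemma kk_mk (w : RW' adj hsymm v) :
    kk adj hsymm v (w : CC adj hsymm v) = iot adj hsymm v w * sg adj hsymm v * (iot adj hsymm v w)⁻¹ :=
  rfl

lemma kk_sq (c : CC adj hsymm v) : kk adj hsymm v c * kk adj hsymm v c = 1 := by
  induction c using QuotientGroup.induction_on with
  | H w =>
    rw [kk_mk]
    calc iot adj hsymm v w * sg adj hsymm v * (iot adj hsymm v w)⁻¹ *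
          (iot adj hsymm v w * sg adj hsymm v * (iot adj hsymm v w)⁻¹)
        = iot adj hsymm v w * (sg adj hsymm v * sg adj hsymm v) * (iot adj hsymm v w)⁻¹ := by group
      _ = 1 := by rw [sg_sq]; group

lemma kk_smul (w : RW' adj hsymm v) (c : CC adj hsymm v) :
    kk adj hsymm v (w • c) = iot adj hsymm v w * kk adj hsymm v c * (iot adj hsymm v w)⁻¹ := by
  induction c using QuotientGroup.induction_on with
  | H x =>
    rw [MulAction.Quotient.smul_coe, kk_mk, kk_mk, smul_eq_mul, map_mul]
    group

/-- the model of the group -/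
abbrev AA : Type :=
  MM (cc0 adj hsymm v) ⋊[beta (Q := RW' adj hsymm v) (cc0 adj hsymm v)] (RW' adj hsymm v)

/-- from the model to the group -/
noncomputable def psi : AA adj hsymm v →* RW adj hsymm :=
  SemidirectProduct.lift (mlift (cc0 adj hsymm v) (kk adj hsymm v) (kk_sq adj hsymm v))
    (iot adj hsymm v) (by
      intro w
      apply mext
      intro c
      simp only [MonoidHom.comp_apply, MulEquiv.coe_toMonoidHom, beta_tt, mlift_tt,
        MulAut.conj_apply]
      exact kk_smul adj hsymm v w c)

@[simp] lemma psi_tt (c : CC adj hsymm v) :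
    psi adj hsymm v (inl (tt (cc0 adj hsymm v) c)) = kk adj hsymm v c := by
  simp [psi]

@[simp] lemma psi_inr (w : RW' adj hsymm v) : psi adj hsymm v (inr w) = iot adj hsymm v w := by
  simp [psi]

/-- the images of the generators in the model -/
noncomputable def gen (u : V) : AA adj hsymm v :=
  if h : u = v then inl (tt (cc0 adj hsymm v) (cc0 adj hsymm v)) else inr (sg' adj hsymm v ⟨u, h⟩)

lemma gen_self : gen adj hsymm v v = inl (tt (cc0 adj hsymm v) (cc0 adj hsymm v)) := by simp [gen]

lemma gen_ne (u : V) (h : u ≠ v) : gen adj hsymm v u = inr (sg' adj hsymm v ⟨u, h⟩) := by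
  simp [gen, h]

lemma gen_sq (u : V) : gen adj hsymm v u * gen adj hsymm v u = 1 := by
  by_cases h : u = v
  · subst h
    rw [gen_self, ← map_mul, tt_sq, map_one]
  · rw [gen_ne _ _ _ _ h, ← map_mul, sg_sq, map_one]

lemma gen_comm_v (u : V) (hne : u ≠ v) (h : adj u v) :
    gen adj hsymm v u * gen adj hsymm v v = gen adj hsymm v v * gen adj hsymm v u := by
  rw [gen_self, gen_ne _ _ _ _ hne]
  have h1 := inl_aut (φ := beta (Q := RW' adj hsymm v) (cc0 adj hsymm v))
    (sg' adj hsymm v ⟨u, hne⟩) (tt (cc0 adj hsymm v) (cc0 adj hsymm v))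
  rw [beta_tt, sg_smul_cc0 adj hsymm v ⟨u, hne⟩ h] at h1
  rw [map_inv] at h1
  conv_rhs => rw [h1]
  rw [inv_mul_cancel_right]

lemma gen_comm (u w : V) (ha : adj u w) (hne : u ≠ w) :
    gen adj hsymm v u * gen adj hsymm v w = gen adj hsymm v w * gen adj hsymm v u := by
  by_cases hu : u = v
  · subst hu
    exact (gen_comm_v adj hsymm u w hne.symm (hsymm _ _ ha)).symm
  · by_cases hw : w = v
    · subst hw
      exact gen_comm_v adj hsymm w u hu ha
    · rw [gen_ne _ _ _ _ hu, gen_ne _ _ _ _ hw, ← map_mul, ← map_mul]
      congr 1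
      exact comm_of_adj (radj adj v) (rsymm adj hsymm v) ha (fun e => hne (congrArg Subtype.val e))

/-- from the group to the model -/
noncomputable def phi : RW adj hsymm →* AA adj hsymm v :=
  (rcs adj hsymm).lift ⟨gen adj hsymm v,
    exists_lift _ _ _ (gen_sq adj hsymm v) (gen_comm adj hsymm v)⟩

@[simp] lemma phi_sg (u : V) : phi adj hsymm v (sg adj hsymm u) = gen adj hsymm v u :=
  (rcs adj hsymm).lift_apply_simple _ u

lemma psi_phi : (psi adj hsymm v).comp (phi adj hsymm v) = MonoidHom.id _ := by
  apply hom_ext_sg
  intro u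
  rw [MonoidHom.comp_apply, phi_sg]
  by_cases h : u = v
  · subst h
    rw [gen_self, psi_tt, kk_mk]
    simp
  · rw [gen_ne _ _ _ _ h, psi_inr, iot_sg]
    rfl

lemma phi_iot : (phi adj hsymm v).comp (iot adj hsymm v) = inr := by
  apply hom_ext_sg
  intro u
  rw [MonoidHom.comp_apply, iot_sg, phi_sg, gen_ne _ _ _ _ u.2]

lemma phi_psi : (phi adj hsymm v).comp (psi adj hsymm v) = MonoidHom.id _ := by
  apply SemidirectProduct.hom_ext
  · apply mext
    intro c
    rw [MonoidHom.comp_apply, MonoidHom.comp_apply, psi_tt]
    induction c using QuotientGroup.induction_on with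
    | H w =>
      rw [kk_mk, map_mul, map_mul, map_inv, phi_sg, gen_self]
      have h1 := DFunLike.congr_fun (phi_iot adj hsymm v) w
      rw [MonoidHom.comp_apply] at h1
      rw [h1, ← map_inv, ← inl_aut, beta_tt]
      simp only [MonoidHom.comp_apply, MonoidHom.id_apply]
      congr 2
      rw [cc0, MulAction.Quotient.smul_coe, smul_eq_mul, mul_one]
  · rw [MonoidHom.comp_assoc]
    have : (psi adj hsymm v).comp inr = iot adj hsymm v := by
      ext1 w; simp
    rw [this, phi_iot, MonoidHom.id_comp]

/-- characters of the model: the one of `v` -/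
lemma chi_psi_self (a : AA adj hsymm v) : chi adj hsymm v (psi adj hsymm v a) = a.left.right := by
  have h : (chi adj hsymm v).comp (psi adj hsymm v) =
      SemidirectProduct.lift (rightHom : MM (cc0 adj hsymm v) →* ℤˣ) 1 (by
        intro w
        apply mext
        intro c
        simp) := by
    apply SemidirectProduct.hom_ext
    · apply mext
      intro c
      simp only [MonoidHom.comp_apply, psi_tt, lift_inl, rightHom_eq_right, tt_right]
      induction c using QuotientGroup.induction_on with
      | H w =>
        rw [kk_mk, map_mul, map_mul, map_inv, mul_right_comm, mul_inv_cancel, one_mul, chi_sg]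
        simp
    · apply hom_ext_sg
      intro u
      simp only [MonoidHom.comp_apply, psi_inr, iot_sg, chi_sg, lift_inr, MonoidHom.one_apply]
      simp [Ne.symm u.2]
  have h2 := DFunLike.congr_fun h a
  simpa [SemidirectProduct.lift] using h2

/-- characters of the model: the other ones -/
lemma chi_psi_ne (u : {u : V // u ≠ v}) (a : AA adj hsymm v) :
    chi adj hsymm u.1 (psi adj hsymm v a) = chi (radj adj v) (rsymm adj hsymm v) u a.right := by
  have h : (chi adj hsymm u.1).comp (psi adj hsymm v) =
      (chi (radj adj v) (rsymm adj hsymm v) u).comp rightHom := by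
    apply SemidirectProduct.hom_ext
    · apply mext
      intro c
      simp only [MonoidHom.comp_apply, psi_tt, rightHom_inl, map_one]
      induction c using QuotientGroup.induction_on with
      | H w =>
        rw [kk_mk, map_mul, map_mul, map_inv, mul_right_comm, mul_inv_cancel, one_mul, chi_sg]
        simp [u.2]
    · apply hom_ext_sg
      intro w
      simp only [MonoidHom.comp_apply, psi_inr, iot_sg, chi_sg, rightHom_inr]
      by_cases hw : u = w
      · subst hw; simp
      · have : u.1 ≠ w.1 := fun e => hw (Subtype.ext e)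
        simp [hw, this]
  exact DFunLike.congr_fun h a

/-- the commutator subgroup of the group without `v` -/
noncomputable abbrev Gam' : Subgroup (RW' adj hsymm v) := Gam (radj adj v) (rsymm adj hsymm v)

/-- the action on the free group -/
noncomputable def act : Gam' adj hsymm v →* MulAut (FreeGroup (XX (cc0 adj hsymm v))) :=
  (alpha (Q := RW' adj hsymm v) (cc0 adj hsymm v)).comp (Gam' adj hsymm v).subtype

/-- the inclusion of the poly-free model into the model -/
noncomputable def jj : FreeGroup (XX (cc0 adj hsymm v)) ⋊[act adj hsymm v] (Gam' adj hsymm v) →*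
    AA adj hsymm v :=
  SemidirectProduct.map inl (Gam' adj hsymm v).subtype (by
    intro g
    ext1 x
    simp only [MonoidHom.comp_apply, MulEquiv.coe_toMonoidHom]
    exact (beta_inl (cc0 adj hsymm v) (g : RW' adj hsymm v) (FreeGroup.of x)).symm)

lemma psi_jj_mem (a : FreeGroup (XX (cc0 adj hsymm v)) ⋊[act adj hsymm v] (Gam' adj hsymm v)) :
    psi adj hsymm v (jj adj hsymm v a) ∈ Gam adj hsymm := by
  rw [mem_Gam]
  intro u
  by_cases h : u = v
  · subst h
    rw [chi_psi_self]
    simp [jj]
  · have := chi_psi_ne adj hsymm v ⟨u, h⟩ (jj adj hsymm v a)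
    rw [this]
    exact (mem_Gam _ _ _).1 a.right.2 ⟨u, h⟩

/-- **The commutator subgroup is poly-free**: one step of the tower. -/
noncomputable def gamEquiv :
    (FreeGroup (XX (cc0 adj hsymm v)) ⋊[act adj hsymm v] (Gam' adj hsymm v)) ≃* Gam adj hsymm :=
  MulEquiv.ofBijective
    (((psi adj hsymm v).comp (jj adj hsymm v)).codRestrict (Gam adj hsymm) (psi_jj_mem adj hsymm v))
    (by
      have hinj : Function.Injective (psi adj hsymm v) := by
        intro a b hab
        have ha := DFunLike.congr_fun (phi_psi adj hsymm v) a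
        have hb := DFunLike.congr_fun (phi_psi adj hsymm v) b
        rw [MonoidHom.comp_apply] at ha hb
        rw [hab, hb] at ha
        exact ha.symm
      constructor
      · intro a b hab
        have h1 : psi adj hsymm v (jj adj hsymm v a) = psi adj hsymm v (jj adj hsymm v b) :=
          congrArg Subtype.val hab
        have h2 := hinj h1
        have h3 := congrArg (fun x => x.left.left) h2
        have h4 := congrArg (fun x => x.right) h2
        simp only [jj, map_left, left_inl, map_right] at h3 h4
        exact SemidirectProduct.ext h3 (Subtype.ext h4)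
      · rintro ⟨w, hw⟩
        rw [mem_Gam] at hw
        have hpp : psi adj hsymm v (phi adj hsymm v w) = w :=
          DFunLike.congr_fun (psi_phi adj hsymm v) w
        have h1 := chi_psi_self adj hsymm v (phi adj hsymm v w)
        rw [hpp, hw v] at h1
        have h2 : (phi adj hsymm v w).right ∈ Gam' adj hsymm v := by
          rw [mem_Gam]
          intro u
          have := chi_psi_ne adj hsymm v u (phi adj hsymm v w)
          rw [hpp, hw u.1] at this
          exact this.symm
        refine ⟨⟨(phi adj hsymm v w).left.left, ⟨_, h2⟩⟩, ?_⟩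
        apply Subtype.ext
        change psi adj hsymm v (jj adj hsymm v _) = w
        refine Eq.trans (congrArg (psi adj hsymm v) ?_) hpp
        apply SemidirectProduct.ext
        · apply SemidirectProduct.ext
          · rfl
          · exact h1
        · rfl)

end

/-- **Induction principle** for the commutator subgroups of the right-angled Coxeter groups of finite
graphs: they are obtained from the trivial group by successive semidirect products `F ⋊ Q` with a
free normal subgroup `F` (of any rank). -/
theorem gam_induction (P : ∀ (G : Type) [Group G], Prop)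
    (hiso : ∀ (G H : Type) [Group G] [Group H], (G ≃* H) → P G → P H)
    (hone : P Unit)
    (hstep : ∀ (X : Type) (Q : Type) [Group Q] (φ : Q →* MulAut (FreeGroup X)),
      P Q → P (FreeGroup X ⋊[φ] Q)) :
    ∀ (V : Type) [Fintype V] [DecidableEq V] (adj : V → V → Prop) [DecidableRel adj]
      (hsymm : ∀ u v, adj u v → adj v u), P (Gam adj hsymm) := by
  intro V hV hD
  induction h : Fintype.card V generalizing V with
  | zero =>
    intro adj hdec hsymm
    have hE : IsEmpty V := Fintype.card_eq_zero_iff.1 h
    have hsub : Subsingleton (RW adj hsymm) := by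
      have h1 := (rcs adj hsymm).subgroup_closure_range_simple
      have h2 : Set.range (rcs adj hsymm).simple = ∅ := Set.range_eq_empty _
      rw [h2, Subgroup.closure_empty] at h1
      exact subsingleton_of_forall_eq 1 (fun x => by have hx : x ∈ (⊥ : Subgroup _) := h1 ▸ Subgroup.mem_top x; exact Subgroup.mem_bot.1 hx)
    refine hiso Unit (Gam adj hsymm) ?_ hone
    exact
      { toFun := fun _ => 1
        invFun := fun _ => ()
        left_inv := fun _ => rfl
        right_inv := fun x => Subtype.ext (Subsingleton.elim _ _)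
        map_mul' := fun _ _ => (mul_one _).symm }
  | succ n ih =>
    intro adj hdec hsymm
    have hN : Nonempty V := Fintype.card_pos_iff.1 (by omega)
    obtain ⟨v⟩ := hN
    have hc : Fintype.card {u : V // u ≠ v} = n := by
      rw [Fintype.card_subtype_compl, Fintype.card_subtype_eq, h]; simp
    refine hiso _ _ (gamEquiv adj hsymm v) (hstep _ _ _ ?_)
    exact ih {u : V // u ≠ v} hc (radj adj v) (rsymm adj hsymm v)

end Pool.Agent.H96.CD
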